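import Pool.Agent.Q98.HS.STEP
import Pool.Agent.Q98.HS.FIN
import Pool.Agent.Q98.HS.Main
import Pool.Agent.Q98.HS.RFD
import Pool.Agent.Q98.HS.EXT
import Pool.Agent.Q98.HS.MK
import Pool.Agent.Q98.HS.HNN
import Pool.Agent.Q98.HS.EMB
import Pool.Agent.Q98.HS.UNI
import Pool.Agent.Q98.HS.CHN
import Pool.Agent.Q98.HS.BASE

/-!
# A homogeneous strong Gurarii space which is not of universal disposition for separable spaces

MP_c85420_an. The space is the union of a chain of length `ω₁` of Banach spaces `X_a`, each with a
sequence of functionals of norm at most one which tends to zero pointwise. In every step every isometry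
between finite-dimensional subspaces of `X_a` is extended to a surjective isometry of the larger space:
with `I` the set of these isometries and `Φ` the free group over `I` the new space consists of functions
on the set of all families `(φ_g)_{g ∈ Φ}` of functionals of norm at most one on `X_a` which satisfy
`φ_{ug}(e) = φ_g(u e)` for all `e` in the domain of `u ∈ I`; it is generated by the evaluations
`φ ↦ φ_g(x)`, and the translations of `Φ` act as isometries. As a null sequence of functionals restricted
to a finite-dimensional subspace tends to zero in norm, the given null sequence extends to a null sequence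
of such families. The isometries found before are continued in all later steps. So the union is complete,
homogeneous for finite-dimensional subspaces and (as it contains all finite-dimensional spaces) a strong
Gurarii space. The first space contains `ℓ_∞ ⊕ c_0` with the coordinate functionals of `c_0`; so there are a
copy of `c_0` in `X` and a pointwise null sequence of functionals of norm at most one on `X` which extends
the coordinate functionals of `c_0`. If the embedding `c_0 → X` had an isometric extension
`g : c → X` (`c` the convergent sequences), then `‖g(1) - 2 e_n‖ = 1` gives `f_n(g(1)) ≥ 2 - 1 = 1`, a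
contradiction to `f_n → 0` pointwise.
-/

set_option autoImplicit false

namespace Pool.Agent.Results.MP_c85420_an.HomogeneousStrongGurarii

/-- `X` is a strong Gurarii space: complete, and for every finite-dimensional space `E`, every
subspace `S` of `E` and every isometric embedding `f` of `S` into `X` there is an isometric embedding
of `E` into `X` which extends `f`. -/
def IsStrongGurarii (X : Type) [NormedAddCommGroup X] [NormedSpace ℝ X] : Prop :=
  CompleteSpace X ∧
  ∀ (E : Type) [NormedAddCommGroup E] [NormedSpace ℝ E] [FiniteDimensional ℝ E]
    (S : Submodule ℝ E) (f : S →ₗᵢ[ℝ] X), ∃ g : E →ₗᵢ[ℝ] X, ∀ s : S, g s = f s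

/-- `X` is homogeneous with respect to finite-dimensional subspaces: every bijective isometry between
finite-dimensional subspaces of `X` extends to a surjective isometry of `X`. -/
def IsHomogeneousFD (X : Type) [NormedAddCommGroup X] [NormedSpace ℝ X] : Prop :=
  ∀ (E F : Submodule ℝ X) [FiniteDimensional ℝ E] [FiniteDimensional ℝ F] (h : E ≃ₗᵢ[ℝ] F),
    ∃ U : X ≃ₗᵢ[ℝ] X, ∀ e : E, U e = h e

/-- `X` is of universal disposition for separable spaces: complete, and for every separable Banach
space `T`, every closed subspace `S` of `T` and every isometric embedding `f` of `S` into `X` there is an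
isometric embedding of `T` into `X` which extends `f`. -/
def IsUniversalDispositionSep (X : Type) [NormedAddCommGroup X] [NormedSpace ℝ X] : Prop :=
  CompleteSpace X ∧
  ∀ (T : Type) [NormedAddCommGroup T] [NormedSpace ℝ T] [CompleteSpace T]
    [TopologicalSpace.SeparableSpace T] (S : Submodule ℝ T), IsClosed (S : Set T) →
    ∀ f : S →ₗᵢ[ℝ] X, ∃ g : T →ₗᵢ[ℝ] X, ∀ s : S, g s = f s

/-- **There is a strong Gurarii space which is homogeneous with respect to finite-dimensional
subspaces, but not of universal disposition for separable spaces.** -/
theorem result : ∃ (X : Type) (_ : NormedAddCommGroup X) (_ : NormedSpace ℝ X),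
    IsStrongGurarii X ∧ IsHomogeneousFD X ∧ ¬ IsUniversalDispositionSep X := by
  obtain ⟨U, i1, i2, q, hq, hext, hemb, T, j1, j2, j3, j4, S, j, hS, hn⟩ :=
    Q98.HS.fin (Q98.HS.step Q98.HS.rfd Q98.HS.ext Q98.HS.hnn Q98.HS.emb Q98.HS.mk) Q98.HS.uni
      Q98.HS.chn Q98.HS.base Q98.HS.emb Q98.HS.mk
  refine ⟨q.X, inferInstance, inferInstance, ⟨hq, ?_⟩, ?_, ?_⟩
  · intro E _ _ _ S' f
    obtain ⟨k⟩ := hemb E
    exact Q98.HS.disposition hext k S' f
  · intro E F _ _ h
    exact Q98.HS.homogeneous hext E F h
  · rintro ⟨-, hd⟩
    exact hn (hd T S hS j)

end Pool.Agent.Results.MP_c85420_an.HomogeneousStrongGurarii
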